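import Pool.Agent.Helper30.BG.Goals

/-!
For MP_66e6f4_an, project BG of helper30, packet HARN: Harnack inequality and gradient estimate for
positive harmonic functions, from the mean value property `S_MV`.
-/

open InnerProductSpace Metric Set Filter Topology MeasureTheory
open scoped ContDiff Laplacian

namespace Pool.Agent.Helper87.BG

open Pool.Agent.Helper30.BG

/-- the rescaled kernel centred at `x` -/
noncomputable def ker (ψ : E3 → ℝ) (x : E3) (r : ℝ) (ζ : E3) : ℝ := ψ (r⁻¹ • (ζ - x)) * (r ^ 3)⁻¹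

theorem ker_mean {ψ w : E3 → ℝ} {x : E3} {r : ℝ} (hr : 0 < r) :
    ∫ z, ψ z * w (x + r • z) = ∫ ζ, ker ψ x r ζ * w ζ := by
  have h1 : (fun z : E3 => ψ z * w (x + r • z)) =
      fun z => (fun y : E3 => ψ (r⁻¹ • y) * w (x + y)) (r • z) := by
    funext z
    simp only
    rw [smul_smul, inv_mul_cancel₀ hr.ne', one_smul]
  rw [h1, Measure.integral_comp_smul volume (fun y : E3 => ψ (r⁻¹ • y) * w (x + y)) r]
  have h2 : ∫ y : E3, ψ (r⁻¹ • y) * w (x + y) = ∫ ζ : E3, ψ (r⁻¹ • (ζ - x)) * w ζ := by
    rw [← integral_add_left_eq_self (μ := (volume : Measure E3))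
      (fun ζ : E3 => ψ (r⁻¹ • (ζ - x)) * w ζ) x]
    simp
  rw [h2, finrank_euclideanSpace_fin, abs_of_pos (by positivity), smul_eq_mul,
    ← integral_const_mul]
  refine integral_congr_ae (Eventually.of_forall fun ζ => ?_)
  simp only [ker]
  ring

theorem ker_zero {ψ : E3 → ℝ} (h0 : ∀ z, 1 ≤ ‖z‖ → ψ z = 0) {x : E3} {r : ℝ} (hr : 0 < r)
    {ζ : E3} (h : r ≤ ‖ζ - x‖) : ker ψ x r ζ = 0 := by
  have : (1 : ℝ) ≤ ‖r⁻¹ • (ζ - x)‖ := by
    rw [norm_smul, norm_inv, Real.norm_eq_abs, abs_of_pos hr, inv_mul_eq_div, le_div_iff₀ hr]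
    linarith
  rw [ker, h0 _ this, zero_mul]

theorem ker_integrable {ψ w : E3 → ℝ} (hψ : Continuous ψ) (hw : Continuous w)
    (h0 : ∀ z, 1 ≤ ‖z‖ → ψ z = 0) {x : E3} {r : ℝ} (hr : 0 < r) :
    Integrable (fun ζ => ker ψ x r ζ * w ζ) := by
  refine Continuous.integrable_of_hasCompactSupport ?_ ?_
  · unfold ker; fun_prop
  · refine HasCompactSupport.intro (isCompact_closedBall x r) fun ζ hζ => ?_
    rw [mem_closedBall, dist_eq_norm, not_le] at hζ
    rw [ker_zero h0 hr hζ.le, zero_mul]

theorem harn (hMV : S_MV) : S_HARN := by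
  obtain ⟨ψ, hc, hcs, hnn, h0, hpos, -, hmv⟩ := hMV
  have hψc : Continuous ψ := hc.continuous
  -- lower bound on the closed ball of radius 2/3
  obtain ⟨m, hm, hmb⟩ : ∃ m : ℝ, 0 < m ∧ ∀ z : E3, ‖z‖ ≤ 2 / 3 → m ≤ ψ z := by
    obtain ⟨z0, hz0, hz1⟩ := (isCompact_closedBall (0 : E3) (2 / 3)).exists_isMinOn
      ⟨0, by simp only [mem_closedBall, dist_self]; norm_num⟩ hψc.continuousOn
    refine ⟨ψ z0, hpos z0 ?_, fun z hz => hz1 (by simpa using hz)⟩
    have : ‖z0‖ ≤ 2 / 3 := by simpa using hz0
    linarith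
  obtain ⟨Q, hQ⟩ : ∃ Q : ℝ, ∀ z, ψ z ≤ Q := by
    obtain ⟨Q, hQ⟩ := hcs.exists_bound_of_continuous hψc
    exact ⟨Q, fun z => (le_abs_self _).trans (hQ z)⟩
  obtain ⟨L, hL⟩ := hc.lipschitzWith_of_hasCompactSupport hcs (by norm_num)
  have hQ0 : 0 ≤ Q := (hnn 0).trans (hQ 0)
  refine ⟨max 1 (max (27 * Q / m) (256 * L / m)), le_max_left _ _, ?_⟩
  intro w x r hr hw hΔ hw0
  have hwc : Continuous w := hw.continuous
  have hwx : 0 ≤ w x := hw0 x (mem_ball_self hr)
  have mean : ∀ (y : E3) (ρ : ℝ), 0 < ρ → ball y ρ ⊆ ball x r → w y = ∫ ζ, ker ψ y ρ ζ * w ζ := by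
    intro y ρ hρ hs
    rw [hmv w y ρ hρ hw (fun z hz => hΔ z (hs hz)), ker_mean hρ]
  refine ⟨fun y hy => ?_, fun i => ?_⟩
  · rw [mem_closedBall, dist_eq_norm] at hy
    have hs1 : ball x (r / 4) ⊆ ball x r := ball_subset_ball (by linarith)
    have hs2 : ball y (3 * r / 4) ⊆ ball x r := by
      apply ball_subset_ball'
      rw [dist_eq_norm]; linarith
    have hwy : 0 ≤ w y := by
      apply hw0
      rw [mem_ball, dist_eq_norm]; linarith
    have e1 := mean x (r / 4) (by positivity) hs1
    have e2 := mean y (3 * r / 4) (by positivity) hs2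
    have key : w x ≤ 27 * Q / m * w y := by
      rw [e1, e2, ← integral_const_mul]
      refine integral_mono (ker_integrable hψc hwc h0 (by positivity))
        ((ker_integrable hψc hwc h0 (by positivity)).const_mul _) fun ζ => ?_
      by_cases hζ : r / 4 ≤ ‖ζ - x‖
      · beta_reduce
        rw [ker_zero h0 (by positivity) hζ, zero_mul]
        by_cases hζ2 : 3 * r / 4 ≤ ‖ζ - y‖
        · rw [ker_zero h0 (by positivity) hζ2]; simp
        · have : 0 ≤ w ζ := by
            apply hw0
            apply hs2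
            rw [mem_ball, dist_eq_norm]; exact not_le.1 hζ2
          have h3 : 0 ≤ ker ψ y (3 * r / 4) ζ := by
            unfold ker
            have := hnn ((3 * r / 4)⁻¹ • (ζ - y))
            positivity
          positivity
      · rw [not_le] at hζ
        have hwζ : 0 ≤ w ζ := by
          apply hw0
          rw [mem_ball, dist_eq_norm]; linarith
        have hn : ‖(3 * r / 4)⁻¹ • (ζ - y)‖ ≤ 2 / 3 := by
          have h4 : ‖ζ - y‖ ≤ r / 2 := by
            have : ζ - y = (ζ - x) - (y - x) := by abel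
            rw [this]
            refine (norm_sub_le _ _).trans ?_
            linarith
          rw [norm_smul, norm_inv, Real.norm_eq_abs, abs_of_pos (by positivity), inv_mul_eq_div,
            div_le_iff₀ (by positivity)]
          linarith
        have h5 := hmb _ hn
        have h6 := hQ ((r / 4)⁻¹ • (ζ - x))
        beta_reduce
        rw [← mul_assoc]
        refine mul_le_mul_of_nonneg_right ?_ hwζ
        unfold ker
        have e3 : 27 * Q / m * (ψ ((3 * r / 4)⁻¹ • (ζ - y)) * ((3 * r / 4) ^ 3)⁻¹) =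
            (Q / m * ψ ((3 * r / 4)⁻¹ • (ζ - y))) * ((r / 4) ^ 3)⁻¹ := by
          field_simp
          ring
        rw [e3]
        refine mul_le_mul_of_nonneg_right ?_ (by positivity)
        refine h6.trans ?_
        rw [div_mul_eq_mul_div, le_div_iff₀ hm]
        exact mul_le_mul_of_nonneg_left h5 hQ0
    refine key.trans (mul_le_mul_of_nonneg_right ?_ hwy)
    exact (le_max_left _ _).trans (le_max_right _ _)
  · have hder : ‖fderiv ℝ w x‖ ≤ 256 * L / m * w x / r := by
      refine norm_fderiv_le_of_lip' ℝ (by positivity) ?_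
      have hev : ∀ᶠ y in 𝓝 x, y ∈ ball x (r / 4) := ball_mem_nhds x (by positivity)
      filter_upwards [hev] with y hy
      rw [mem_ball, dist_eq_norm] at hy
      have hs1 : ball x (r / 4) ⊆ ball x r := ball_subset_ball (by linarith)
      have hs2 : ball y (r / 4) ⊆ ball x r := by
        apply ball_subset_ball'
        rw [dist_eq_norm]; linarith
      have e0 := mean x r hr subset_rfl
      have e1 := mean x (r / 4) (by positivity) hs1
      have e2 := mean y (r / 4) (by positivity) hs2
      have i1 := ker_integrable (x := x) (r := r / 4) hψc hwc h0 (by positivity)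
      have i2 := ker_integrable (x := y) (r := r / 4) hψc hwc h0 (by positivity)
      have i0 := ker_integrable (x := x) (r := r) hψc hwc h0 hr
      have e3 : w y - w x = ∫ ζ, (ker ψ y (r / 4) ζ * w ζ - ker ψ x (r / 4) ζ * w ζ) := by
        rw [integral_sub i2 i1, ← e1, ← e2]
      rw [e3]
      refine (norm_integral_le_integral_norm _).trans ?_
      have e4 : 256 * L / m * w x / r * ‖y - x‖ =
          ∫ ζ, (256 * L / m / r * ‖y - x‖) * (ker ψ x r ζ * w ζ) := by
        rw [integral_const_mul, ← e0]; ring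
      rw [e4]
      refine integral_mono (i2.sub i1).norm (i0.const_mul _) fun ζ => ?_
      beta_reduce
      by_cases hζ : r / 2 ≤ ‖ζ - x‖
      · have h7 : r / 4 ≤ ‖ζ - y‖ := by
          have : ζ - x = (ζ - y) + (y - x) := by abel
          have := norm_add_le (ζ - y) (y - x)
          rw [← ‹ζ - x = (ζ - y) + (y - x)›] at this
          linarith
        rw [ker_zero h0 (by positivity) h7, ker_zero h0 (by positivity) (by linarith)]
        simp only [zero_mul, sub_self, norm_zero]
        by_cases hζ2 : r ≤ ‖ζ - x‖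
        · rw [ker_zero h0 (by positivity) hζ2]; simp
        · have : 0 ≤ w ζ := by
            apply hw0
            rw [mem_ball, dist_eq_norm]; exact not_le.1 hζ2
          have h3 : 0 ≤ ker ψ x r ζ := by
            unfold ker
            have := hnn (r⁻¹ • (ζ - x))
            positivity
          positivity
      · rw [not_le] at hζ
        have hwζ : 0 ≤ w ζ := by
          apply hw0
          rw [mem_ball, dist_eq_norm]; linarith
        rw [← sub_mul, norm_mul, Real.norm_eq_abs (w ζ), abs_of_nonneg hwζ, ← mul_assoc]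
        refine mul_le_mul_of_nonneg_right ?_ hwζ
        unfold ker
        rw [← sub_mul, norm_mul]
        have h8 : ‖ψ ((r / 4)⁻¹ • (ζ - y)) - ψ ((r / 4)⁻¹ • (ζ - x))‖ ≤ L * (4 / r * ‖y - x‖) := by
          refine (hL.norm_sub_le _ _).trans ?_
          refine mul_le_mul_of_nonneg_left ?_ L.2
          rw [← smul_sub, norm_smul, norm_inv, Real.norm_eq_abs, abs_of_pos (by positivity)]
          have : ζ - y - (ζ - x) = -(y - x) := by abel
          rw [this, norm_neg, inv_div]
        have h9 : m ≤ ψ (r⁻¹ • (ζ - x)) := by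
          apply hmb
          rw [norm_smul, norm_inv, Real.norm_eq_abs, abs_of_pos hr, inv_mul_eq_div,
            div_le_iff₀ hr]
          linarith
        rw [Real.norm_eq_abs (((r / 4) ^ 3)⁻¹), abs_of_pos (by positivity)]
        have h10 : 256 * L / m / r * ‖y - x‖ * (ψ (r⁻¹ • (ζ - x)) * (r ^ 3)⁻¹) =
            (L * (4 / r * ‖y - x‖)) * (ψ (r⁻¹ • (ζ - x)) / m) * ((r / 4) ^ 3)⁻¹ := by
          field_simp
          ring
        rw [h10]
        refine mul_le_mul_of_nonneg_right ?_ (by positivity)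
        refine h8.trans ?_
        have h11 : 1 ≤ ψ (r⁻¹ • (ζ - x)) / m := by rw [le_div_iff₀ hm]; linarith
        have h12 : 0 ≤ (L : ℝ) * (4 / r * ‖y - x‖) := by positivity
        nlinarith
    have h13 : |pd i w x| ≤ ‖fderiv ℝ w x‖ := by
      rw [pd, ← Real.norm_eq_abs]
      refine (ContinuousLinearMap.le_opNorm _ _).trans ?_
      rw [norm_eb, mul_one]
    refine h13.trans (hder.trans ?_)
    rw [div_le_div_iff_of_pos_right hr]
    refine mul_le_mul_of_nonneg_right ?_ hwx
    exact (le_max_right _ _).trans (le_max_right _ _)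

end Pool.Agent.Helper87.BG
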