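import Pool.Agent.Helper30.BG.Goals

/-!
For MP_66e6f4_an, project BG of helper30, packet N: the hodograph variable `Y` is bounded.
-/

open InnerProductSpace Metric Set Filter Topology MeasureTheory
open scoped ContDiff Laplacian

namespace Pool.Agent.Helper87.BG

open Pool.Agent.Helper30.BG

theorem abs_coord_le (x : E3) (i : Fin 3) : |x i| ≤ ‖x‖ := by
  rw [← Real.norm_eq_abs]; exact PiLp.norm_apply_le x i

/-- The near-plane step. -/
theorem near_plane (hMP : S_MP) {u Y g : E3 → ℝ} {a0 a1 α β κp κm M : ℝ}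
    (H : YSol u Y g a0 a1 α β κp κm M) {r0 : ℝ}
    (hA : ∀ x : E3, 1 / 120 * ‖x‖ ≤ x 0 → r0 ≤ ‖x‖ → Y x ≤ 1)
    {x : E3} (hr : 0 < ‖x‖) (hr0 : r0 ≤ ‖x‖ / 30) (ha0 : -(β * (‖x‖ / 4)) ≤ a0)
    (h1 : x 0 ≤ 1 / 120 * ‖x‖) (h2 : -(1 / 120 * ‖x‖) ≤ x 0) {b : ℝ} (hb : 0 ≤ b)
    (hYb : ∀ y : E3, ‖y‖ ≤ 2 * ‖x‖ → Y y ≤ b) : Y x ≤ 1 + b / 4 := by
  set r := ‖x‖ with hrdef
  set T := r / 30 with hT
  set R := r / 2 with hR
  have hRpos : 0 < R := by positivity
  set q : E3 := x + (T - x 0) • eb 0 with hq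
  have q0 : q 0 = T := by simp [hq, eb_apply]
  have q1 : q 1 = x 1 := by simp [hq, eb_apply]
  have q2 : q 2 = x 2 := by simp [hq, eb_apply]
  have hqx : ‖q - x‖ ≤ r / 24 := by
    have : q - x = (T - x 0) • eb 0 := by simp [hq]
    rw [this, norm_smul, norm_eb, mul_one, Real.norm_eq_abs, abs_le]
    constructor <;> linarith
  set Ω : Set E3 := {y | y 0 < T} ∩ ball q R with hΩ
  have c0 : Continuous fun y : E3 => y 0 := by fun_prop
  have hopen : IsOpen Ω := (isOpen_lt c0 continuous_const).inter isOpen_ball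
  have hbd : Bornology.IsBounded Ω := isBounded_ball.subset inter_subset_right
  have hcl : ∀ y ∈ closure Ω, y 0 ≤ T ∧ ‖y - q‖ ≤ R := by
    intro y hy
    have hc : IsClosed ({y : E3 | y 0 ≤ T} ∩ closedBall q R) :=
      (isClosed_le c0 continuous_const).inter isClosed_closedBall
    have hsub : Ω ⊆ {y : E3 | y 0 ≤ T} ∩ closedBall q R := by
      rintro z ⟨hz1, hz2⟩
      exact ⟨show z 0 ≤ T from le_of_lt hz1, ball_subset_closedBall hz2⟩
    have := closure_minimal hsub hc hy
    exact ⟨this.1, by simpa [dist_eq_norm] using this.2⟩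
  have hnorm : ∀ y : E3, ‖y - q‖ ≤ R → ‖y‖ ≤ 2 * r := by
    intro y hy
    have e : y = (y - q) + (q - x) + x := by abel
    have := norm_add₃_le (a := y - q) (b := q - x) (c := x)
    rw [← e] at this
    linarith
  have hpb : ∀ y : E3, pbar T (x 1) (x 2) R y =
      (‖y - q‖ ^ 2 - 3 * (T - y 0) ^ 2 + 3 * R * (T - y 0)) / R ^ 2 := by
    intro y
    rw [norm_sq_eq, pbar]
    simp only [PiLp.sub_apply, q0, q1, q2]
    congr 1
    ring
  set v : E3 → ℝ := fun y => (b * pbar T (x 1) (x 2) R y - Y y) + 1 with hv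
  have hHD : ∀ y, HD2 v y (b • (fun i => if i = 0 then (4 * (T - y 0) - 3 * R) / R ^ 2
      else if i = 1 then 2 * (y 1 - x 1) / R ^ 2 else 2 * (y 2 - x 2) / R ^ 2) -
        (fun i => pd i Y y)) (b * 0 - Δ Y y) := by
    intro y
    exact (((HD2.pbar y).const_mul b).sub (HD2.mk' H.cd.contDiffAt)).add_const 1
  have hvc : Continuous v := by
    rw [continuous_iff_continuousAt]
    exact fun y => (hHD y).cd.continuousAt
  have hxΩ : x ∈ Ω := by
    refine ⟨?_, ?_⟩
    · change x 0 < T
      linarith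
    · rw [mem_ball, dist_eq_norm, norm_sub_rev]
      linarith
  have hkey : 0 ≤ v x := by
    refine hMP Ω v g M hopen hbd hvc.continuousOn (fun y _ => (hHD y).cd) ?_ ?_ ?_ x
      (subset_closure hxΩ)
    · intro y _
      rw [abs_of_nonneg (H.g0 y)]
      exact H.gM y
    · intro y hy
      have e1 := (hHD y).pd 0
      have e2 := (hHD y).lap
      simp only [Pi.sub_apply, Pi.smul_apply, smul_eq_mul, if_true] at e1
      rw [e1, e2]
      have e3 := H.eq y
      have e4 : 0 ≤ ∑ i, pd i Y y ^ 2 := Finset.sum_nonneg fun i _ => sq_nonneg _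
      have g0 := H.g0 y
      have e5 : b * 0 - Δ Y y + 2 * g y * (b * ((4 * (T - y 0) - 3 * R) / R ^ 2) - pd 0 Y y) =
          - (g y * ∑ i, pd i Y y ^ 2) + 2 * (g y * (b * ((4 * (T - y 0) - 3 * R) / R ^ 2))) := by
        rw [← e3]; ring
      rw [e5]
      have e6 : 0 ≤ g y * ∑ i, pd i Y y ^ 2 := mul_nonneg g0 e4
      by_cases ht : 4 * (T - y 0) - 3 * R ≤ 0
      · have e7 : (4 * (T - y 0) - 3 * R) / R ^ 2 ≤ 0 :=
          div_nonpos_of_nonpos_of_nonneg ht (by positivity)
        have e8 : g y * (b * ((4 * (T - y 0) - 3 * R) / R ^ 2)) ≤ 0 :=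
          mul_nonpos_of_nonneg_of_nonpos g0 (mul_nonpos_of_nonneg_of_nonpos hb e7)
        linarith
      · have hy0 : y 0 ≤ -(r / 4) := by linarith
        have hu : u y ≤ a0 := by
          have a1 := H.dn y (by linarith)
          have a2 : β * y 0 ≤ β * (-(r / 4)) := mul_le_mul_of_nonneg_left hy0 H.β_pos.le
          linarith
        rw [H.gdn y hu]
        simp
    · intro y hy
      have hyc := hcl y (frontier_subset_closure hy)
      have hyn : y ∉ Ω := by
        rw [frontier, hopen.interior_eq] at hy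
        exact hy.2
      have hy2r := hnorm y hyc.2
      change 0 ≤ (b * pbar T (x 1) (x 2) R y - Y y) + 1
      by_cases hcase : y 0 = T
      · have hh : 0 ≤ pbar T (x 1) (x 2) R y := by
          rw [hpb, hcase]
          have : (0:ℝ) ≤ ‖y - q‖ ^ 2 := sq_nonneg _
          simp only [sub_self]
          apply div_nonneg _ (sq_nonneg _)
          linarith
        have hY1 : Y y ≤ 1 := by
          apply hA y
          · rw [hcase]; linarith
          · have := abs_coord_le y 0
            rw [hcase] at this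
            have := le_abs_self T
            linarith
        have := mul_nonneg hb hh
        linarith
      · have hlt : y 0 < T := lt_of_le_of_ne hyc.1 hcase
        have hR' : ‖y - q‖ = R := by
          by_contra hne
          apply hyn
          refine ⟨hlt, ?_⟩
          rw [mem_ball, dist_eq_norm]
          exact lt_of_le_of_ne hyc.2 hne
        have ht0 : 0 ≤ T - y 0 := by linarith
        have htR : T - y 0 ≤ R := by
          have := abs_coord_le (y - q) 0
          rw [hR'] at this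
          simp only [PiLp.sub_apply, q0] at this
          have := (abs_le.1 this).1
          linarith
        have hh : 1 ≤ pbar T (x 1) (x 2) R y := by
          rw [hpb, hR', le_div_iff₀ (by positivity)]
          nlinarith [mul_nonneg ht0 (sub_nonneg.2 htR)]
        have hYb' := hYb y hy2r
        nlinarith
  have hx : v x = (b * pbar T (x 1) (x 2) R x - Y x) + 1 := rfl
  have hh : pbar T (x 1) (x 2) R x ≤ 1 / 4 := by
    rw [pbar, div_le_iff₀ (by positivity)]
    have t1 : T - x 0 ≤ r / 24 := by linarith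
    have t2 : 3 * R * (T - x 0) ≤ 3 * R * (r / 24) := mul_le_mul_of_nonneg_left t1 (by positivity)
    have t3 : 3 * R * (r / 24) = 1 / 4 * R ^ 2 := by rw [hR]; ring
    nlinarith [sq_nonneg (T - x 0)]
  have := mul_le_mul_of_nonneg_left hh hb
  rw [hx] at hkey
  linarith

theorem n (hMP : S_MP) (hA : S_A) (hD : S_D) : S_N := by
  intro u Y g a0 a1 α β κp κm M H
  obtain ⟨rA, hrA⟩ := hA u Y g a0 a1 α β κp κm M H (1 / 120) (by norm_num) 1 one_pos
  obtain ⟨CD, rD, hrD⟩ := hD u Y g a0 a1 α β κp κm M H (1 / 120) (by norm_num)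
  obtain ⟨c, hc0, hc⟩ := H.lin
  have hβ := H.β_pos
  set C := max 1 CD with hC
  set r1 := max (max 1 (30 * rA)) (max (max rA rD) (4 * (-a0) / β)) with hr1
  have r1a : 1 ≤ r1 := (le_max_left _ _).trans (le_max_left _ _)
  have r1b : 30 * rA ≤ r1 := (le_max_right _ _).trans (le_max_left _ _)
  have r1c : rA ≤ r1 := ((le_max_left _ _).trans (le_max_left _ _)).trans (le_max_right _ _)
  have r1d : rD ≤ r1 := ((le_max_right _ _).trans (le_max_left _ _)).trans (le_max_right _ _)
  have r1e : 4 * (-a0) / β ≤ r1 := (le_max_right _ _).trans (le_max_right _ _)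
  have step : ∀ x : E3, r1 ≤ ‖x‖ → ∀ b : ℝ, 0 ≤ b → (∀ y : E3, ‖y‖ ≤ 2 * ‖x‖ → Y y ≤ b) →
      Y x ≤ C + b / 4 := by
    intro x hx b hb hYb
    have hC1 : 1 ≤ C := le_max_left _ _
    by_cases h1 : 1 / 120 * ‖x‖ ≤ x 0
    · have := hrA x h1 (by linarith)
      linarith
    by_cases h2 : x 0 ≤ -(1 / 120 * ‖x‖)
    · have := hrD x h2 (by linarith)
      have : CD ≤ C := le_max_right _ _
      linarith
    have := near_plane hMP H hrA (x := x) (by linarith) (by linarith) (by
      rw [div_le_iff₀ hβ] at r1e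
      have : r1 * β ≤ ‖x‖ * β := mul_le_mul_of_nonneg_right hx hβ.le
      linarith) (by linarith) (by linarith) hb hYb
    linarith
  obtain ⟨B, hB⟩ : ∃ B : ℝ, ∀ x : E3, ‖x‖ ≤ r1 → Y x ≤ B := by
    obtain ⟨z, hz, hz1⟩ := (isCompact_closedBall (0 : E3) r1).exists_isMaxOn
      ⟨0, by simp only [mem_closedBall, dist_self]; linarith⟩ H.cd.continuous.continuousOn
    exact ⟨Y z, fun x hx => hz1 (by simpa using hx)⟩
  set C2 := max (4 * C / 3) B with hC2
  have hC2a : 4 * C / 3 ≤ C2 := le_max_left _ _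
  have hC2b : B ≤ C2 := le_max_right _ _
  have hC2p : 0 ≤ C2 := by
    have hC1 : 1 ≤ C := le_max_left _ _
    linarith
  have ind : ∀ (n : ℕ) (x : E3), Y x ≤ C2 + (1 / 4) ^ n * (c * (1 + 2 ^ n * ‖x‖)) := by
    intro n
    induction n with
    | zero =>
      intro x
      have := hc x
      simp only [pow_zero, one_mul]
      linarith
    | succ n ih =>
      intro x
      by_cases hx : ‖x‖ ≤ r1
      · have h1 := hB x hx
        have h2 : 0 ≤ (1 / 4 : ℝ) ^ (n + 1) * (c * (1 + 2 ^ (n + 1) * ‖x‖)) := by positivity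
        linarith
      · rw [not_le] at hx
        have h3 := step x hx.le (C2 + (1 / 4) ^ n * (c * (1 + 2 ^ n * (2 * ‖x‖))))
          (by positivity) (by
            intro y hy
            refine (ih y).trans ?_
            gcongr)
        refine h3.trans ?_
        have e : C + (C2 + (1 / 4) ^ n * (c * (1 + 2 ^ n * (2 * ‖x‖)))) / 4 =
            (C + C2 / 4) + (1 / 4) ^ (n + 1) * (c * (1 + 2 ^ (n + 1) * ‖x‖)) := by
          ring
        rw [e]
        linarith
  refine ⟨C2, fun x => ?_⟩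
  have lim : Tendsto (fun n : ℕ => C2 + (c * (1 / 4 : ℝ) ^ n + c * ‖x‖ * (1 / 2 : ℝ) ^ n)) atTop
      (𝓝 (C2 + (c * 0 + c * ‖x‖ * 0))) := by
    have l1 : Tendsto (fun n : ℕ => (1 / 4 : ℝ) ^ n) atTop (𝓝 0) :=
      tendsto_pow_atTop_nhds_zero_of_lt_one (by norm_num) (by norm_num)
    have l2 : Tendsto (fun n : ℕ => (1 / 2 : ℝ) ^ n) atTop (𝓝 0) :=
      tendsto_pow_atTop_nhds_zero_of_lt_one (by norm_num) (by norm_num)
    exact ((l1.const_mul c).add (l2.const_mul (c * ‖x‖))).const_add C2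
  simp only [mul_zero, add_zero] at lim
  refine ge_of_tendsto' lim fun n => ?_
  refine (ind n x).trans_eq ?_
  have : (1 / 4 : ℝ) ^ n * 2 ^ n = (1 / 2) ^ n := by
    rw [← mul_pow]; norm_num
  rw [← this]
  ring

end Pool.Agent.Helper87.BG
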